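import Pool.Agent.H21.QG3.Core
import Pool.Agent.H21.QG2.Window
import Pool.Agent.H21.QG2.Removal
import Pool.Agent.H21.QG2.PairCount
import Pool.Agent.H21.QG2.Seventh

/-!
Consequences of the five cluster property for an abstract set `Good` of differences: a quarter of the
integers in the Hardy–Littlewood weight, a quarter of the multiples of `d`, one seventh of the even
integers.
-/

set_option autoImplicit false

open Finset

namespace Pool.Agent.H21.QG3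

open Pool.Agent.H21.QG Pool.Agent.H21.QG2

open Classical in
theorem weighted_abs (K : ℕ) (ε : ℝ) (hε : 0 < ε) : ∃ L : ℕ, ∀ Q : ℕ, 0 < Q →
    (∀ p : ℕ, p.Prime → p ≤ L → p ∣ Q) → ∃ M₀ : ℕ, ∀ (B : ℕ) (Good : ℕ → Prop), ¬ Good 0 →
    FC K B Good → ∀ M : ℕ, M₀ ≤ M → M ≤ B →
      (1 / 4 - ε) * ∑ t ∈ Icc 1 M, (pc Q t : ℝ) ≤
        ∑ t ∈ Icc 1 M with Good t, (pc Q t : ℝ) := by
  by_cases hε4 : 1 / 4 ≤ ε
  · refine ⟨0, fun Q _ _ => ⟨0, fun B Good _ _ M _ _ => ?_⟩⟩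
    have h1 : 0 ≤ ∑ t ∈ Icc 1 M, (pc Q t : ℝ) := Finset.sum_nonneg fun _ _ => Nat.cast_nonneg _
    have h2 : 0 ≤ ∑ t ∈ Icc 1 M with Good t, (pc Q t : ℝ) :=
      Finset.sum_nonneg fun _ _ => Nat.cast_nonneg _
    have h3 : (1 / 4 - ε) * ∑ t ∈ Icc 1 M, (pc Q t : ℝ) ≤ 0 :=
      mul_nonpos_of_nonpos_of_nonneg (by linarith) h1
    linarith
  push Not at hε4
  obtain ⟨n₀, hcore⟩ := core_abs K (ε / 4) (by linarith)
  obtain ⟨L, hL, hLp⟩ := Nat.exists_infinite_primes (5 * K + ⌈8 / ε⌉₊ + 2)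
  refine ⟨L, fun Q hQ hLQ => ⟨Q * (n₀ + ⌈4 / ε⌉₊ + 1), fun B Good hG0 hFC M hM hMR => ?_⟩⟩
  have hQ0 : (0 : ℝ) < Q := by exact_mod_cast hQ
  -- the number of classes
  set n : ℕ := Nat.totient Q with hn
  have hn1 : L - 1 ≤ n := by
    have h1 : Nat.totient L ∣ n := Nat.totient_dvd_of_dvd (hLQ L hLp le_rfl)
    rw [Nat.totient_prime hLp] at h1
    exact Nat.le_of_dvd (Nat.totient_pos.mpr hQ) h1
  have hn8 : 8 / ε ≤ n := by
    have h1 : 8 / ε ≤ ⌈8 / ε⌉₊ := Nat.le_ceil _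
    have h2 : ⌈8 / ε⌉₊ ≤ n := by omega
    exact h1.trans (by exact_mod_cast h2)
  have hnpos : (0 : ℝ) < n := lt_of_lt_of_le (by positivity) hn8
  -- the number of blocks
  set T : ℕ := M / Q with hT
  have hT1 : n₀ + ⌈4 / ε⌉₊ + 1 ≤ T := by
    rw [hT, Nat.le_div_iff_mul_le hQ, mul_comm]
    exact hM
  have hQT : Q * T ≤ M := Nat.mul_div_le M Q
  have hMT : (M : ℝ) / Q ≤ T + 1 := by
    rw [div_le_iff₀ hQ0]
    have h1 : M < Q * (T + 1) := by
      rw [hT]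
      exact Nat.lt_mul_div_succ M hQ
    have h2 : (M : ℝ) ≤ Q * (T + 1) := by exact_mod_cast h1.le
    linarith [mul_comm (Q : ℝ) (T + 1)]
  have hT4 : 4 / ε ≤ T := by
    have h1 : 4 / ε ≤ ⌈4 / ε⌉₊ := Nat.le_ceil _
    have h2 : ⌈4 / ε⌉₊ ≤ T := by omega
    exact h1.trans (by exact_mod_cast h2)
  have hredlt : ∀ a ∈ red Q, a < Q := fun a ha => Finset.mem_range.mp (Finset.mem_filter.mp ha).1
  have hredco : ∀ a ∈ red Q, Nat.Coprime a Q := fun a ha => (Finset.mem_filter.mp ha).2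
  -- the degree condition
  have hdeg : ∀ C' ⊆ red Q, C'.Nonempty → ∃ c ∈ C',
      2 * ((1 / 4 - ε / 4) * (#C' * T) - #C') ≤
      ((∑ c' ∈ C', (cnt Q T Good c c' + cnt Q T Good c' c) : ℕ) : ℝ) := by
    intro C' hC' hne
    have hClt : ∀ a ∈ C', a < Q := fun a ha => hredlt a (hC' ha)
    have hcard := card_win Q T C' hClt
    have hmem : ∀ v ∈ win Q T C', ∃ a ∈ C', ∃ k < T, v = a + Q * k := by
      intro v hv
      unfold win at hv
      obtain ⟨p, hp, hpv⟩ := Finset.mem_image.mp hv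
      rw [Finset.mem_product, Finset.mem_range] at hp
      exact ⟨p.1, hp.1, p.2, hp.2, hpv.symm⟩
    obtain ⟨U, hU, hUne, hUdeg⟩ := hcore B Good hFC (win Q T C') (by
        rw [hcard]
        have h1 : 1 ≤ #C' := Finset.card_pos.mpr hne
        calc n₀ ≤ T := by omega
          _ = 1 * T := (one_mul T).symm
          _ ≤ #C' * T := Nat.mul_le_mul_right T h1)
      (by
        intro v hv
        obtain ⟨a, ha, k, hk, rfl⟩ := hmem v hv
        refine le_trans ?_ hMR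
        have h2 : Q * (k + 1) ≤ Q * T := Nat.mul_le_mul_left Q hk
        have h3 := hClt a ha
        rw [Nat.mul_add, Nat.mul_one] at h2
        omega)
      (by
        intro p hp hpP
        refine ⟨0, fun v hv hcon => ?_⟩
        obtain ⟨a, ha, k, hk, rfl⟩ := hmem v hv
        have hpQ : p ∣ Q := hLQ p hp (by omega)
        have h1 : p ∣ a + Q * k := (Nat.modEq_zero_iff_dvd).mp hcon
        have h2 : p ∣ a := (Nat.dvd_add_left (hpQ.mul_right k)).mp h1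
        have h3 := hredco a (hC' ha)
        exact hp.one_lt.ne' (Nat.dvd_one.mp (h3 ▸ Nat.dvd_gcd h2 hpQ)))
    refine deg_ge Q T hQ C' hClt Good hG0 (1 / 4 - ε / 4) U hU hUne ?_
    intro u hu
    have h1 := hUdeg u hu
    rw [hcard, Nat.cast_mul] at h1
    convert h1 using 3
  have htot := total_ge Q T hQ Good (1 / 4 - ε / 4) (red Q) hredlt hdeg
  rw [sum_cnt Q T hQ, card_red, ← hn] at htot
  -- comparison of the sums
  have hle : ((∑ t ∈ Icc 1 (Q * T) with Good t, pc Q t : ℕ) : ℝ) ≤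
      ∑ t ∈ Icc 1 M with Good t, (pc Q t : ℝ) := by
    rw [Nat.cast_sum]
    refine Finset.sum_le_sum_of_subset_of_nonneg ?_ fun _ _ _ => Nat.cast_nonneg _
    intro t ht
    rw [Finset.mem_filter, Finset.mem_Icc] at ht ⊢
    exact ⟨⟨ht.1.1, ht.1.2.trans hQT⟩, ht.2⟩
  have hup : ∑ t ∈ Icc 1 M, (pc Q t : ℝ) ≤ ((M : ℝ) / Q + 1) * (n : ℝ) ^ 2 := by
    have h1 := sum_periodic_le Q hQ (fun t => (pc Q t : ℝ))
      (fun t => by rw [pc_add_right]) (fun t => Nat.cast_nonneg _) M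
    have h2 : ∑ t ∈ range Q, (pc Q t : ℝ) = (n : ℝ) ^ 2 := by
      rw [← Nat.cast_sum, pc_sum Q hQ, hn]
      push_cast
      rfl
    rw [h2] at h1
    exact h1
  refine le_trans ?_ hle
  refine le_trans ?_ htot
  have h1 : (1 / 4 - ε) * ∑ t ∈ Icc 1 M, (pc Q t : ℝ) ≤ (1 / 4 - ε) * ((T + 2) * (n : ℝ) ^ 2) := by
    refine mul_le_mul_of_nonneg_left (hup.trans ?_) (by linarith)
    refine mul_le_mul_of_nonneg_right ?_ (sq_nonneg _)
    linarith
  refine h1.trans ?_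
  have h2 : (T : ℝ) ≤ ε / 8 * (n * T) := by
    have h3 : 1 ≤ ε / 8 * n := by
      rw [div_le_iff₀ hε] at hn8
      linarith
    have h4 : (0 : ℝ) ≤ T := Nat.cast_nonneg _
    nlinarith
  have h5 : 4 ≤ ε * T := by
    rw [div_le_iff₀ hε] at hT4
    linarith
  have h6 : (n : ℝ) * T ≤ ε / 8 * (n ^ 2 * T) := by
    have := mul_le_mul_of_nonneg_left h2 hnpos.le
    nlinarith
  have h7 : (n : ℝ) ^ 2 * (5 / 2) ≤ n ^ 2 * (5 / 8 * (ε * T)) :=
    mul_le_mul_of_nonneg_left (by linarith) (sq_nonneg _)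
  have h8 : 0 ≤ ε * (n : ℝ) ^ 2 := by positivity
  nlinarith

private lemma dvd_thirty (z : ℕ) (p : ℕ) (hp : p.Prime) (hpz : p ≤ z) :
    p ∣ 30 * Qz z := by
  by_cases h7 : 7 ≤ p
  · apply Dvd.dvd.mul_left
    unfold Qz
    exact Finset.dvd_prod_of_mem (fun p => p)
      (Finset.mem_filter.2 ⟨Finset.mem_Icc.2 ⟨h7, hpz⟩, hp⟩)
  · have h2 := hp.two_le
    apply Dvd.dvd.mul_right
    interval_cases p
    · decide
    · decide
    · exact absurd hp (by decide)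
    · decide
    · exact absurd hp (by decide)

private lemma Qz_pos' (z : ℕ) : 0 < Qz z := by
  unfold Qz
  exact Finset.prod_pos (fun p hp => (Finset.mem_filter.1 hp).2.pos)

open Classical in
/-- one seventh of the even integers `≤ M` are good -/
theorem seventh_abs (K : ℕ) : ∃ M₀ : ℕ, ∀ (B : ℕ) (Good : ℕ → Prop), ¬ Good 0 → FC K B Good →
    ∀ M : ℕ, M₀ ≤ M → M ≤ B →
      (M : ℝ) / 14 ≤ (#{t ∈ Icc 1 M | Even t ∧ Good t} : ℝ) := by
  obtain ⟨L, hL⟩ := weighted_abs K (1 / 2000) (by norm_num)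
  set z := max L 7 with hz
  obtain ⟨M₀, hM₀⟩ := hL (30 * Qz z) (Nat.mul_pos (by norm_num) (Qz_pos' z))
    (fun p hp hpL => dvd_thirty z p hp (hpL.trans (le_max_left _ _)))
  refine ⟨max M₀ (60000 * Qz z), fun B Good hG0 hFC M hM hMB => ?_⟩
  exact seventh z M ((le_max_right _ _).trans hM) Good
    (hM₀ B Good hG0 hFC M ((le_max_left _ _).trans hM) hMB)

open Classical in
/-- a quarter of the multiples of `d` are good -/
theorem multiples_abs (K : ℕ) (ε : ℝ) (hε : 0 < ε) : ∃ M₀ : ℕ, ∀ (B : ℕ) (Good : ℕ → Prop),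
    ¬ Good 0 → FC K B Good → ∀ d : ℕ, 0 < d → (∀ p : ℕ, p.Prime → p ≤ 5 * K → p ∣ d) →
    ∀ M : ℕ, M₀ ≤ M → d * M ≤ B →
      (1 / 4 - ε) * M ≤ (#{m ∈ Icc 1 M | Good (d * m)} : ℝ) := by
  by_cases hε4 : 1 / 4 - ε < 0
  · exact ⟨0, fun B Good _ _ d _ _ M _ _ =>
      (mul_nonpos_of_nonpos_of_nonneg hε4.le (Nat.cast_nonneg _)).trans (Nat.cast_nonneg _)⟩
  push Not at hε4
  obtain ⟨n₀, hcore⟩ := core_abs K ε hε
  refine ⟨n₀, fun B Good hG0 hFC d hd hdP M hM hdM => ?_⟩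
  have hinj : Function.Injective (fun x : ℕ => d * x) := fun a b hab =>
    Nat.eq_of_mul_eq_mul_left hd hab
  set V : Finset ℕ := (range (M + 1)).image (fun x => d * x) with hV
  have hVc : #V = M + 1 := by
    rw [hV, Finset.card_image_of_injective _ hinj, Finset.card_range]
  obtain ⟨U, hUV, hUne, hU⟩ := hcore B Good hFC V (by omega) (fun v hv => by
    rw [hV, Finset.mem_image] at hv
    obtain ⟨x, hx, rfl⟩ := hv
    rw [Finset.mem_range] at hx
    exact (Nat.mul_le_mul_left d (by omega : x ≤ M)).trans hdM) (fun p hp hpP => by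
      refine ⟨1, fun v hv hcon => ?_⟩
      rw [hV, Finset.mem_image] at hv
      obtain ⟨x, _, rfl⟩ := hv
      have h1 : p ∣ d * x := Dvd.dvd.mul_right (hdP p hp hpP) x
      have h2 : 0 ≡ 1 [MOD p] := (Nat.modEq_zero_iff_dvd.mpr h1).symm.trans hcon
      have h3 : p ∣ 1 := Nat.modEq_zero_iff_dvd.mp h2.symm
      exact hp.one_lt.ne' (Nat.dvd_one.mp h3))
  set u := U.min' hUne with hu
  have huU : u ∈ U := Finset.min'_mem _ _
  have h1 := hU u huU
  obtain ⟨a, haM, hau⟩ := Finset.mem_image.1 (hUV huU)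
  rw [Finset.mem_range] at haM
  have h2 : #{u' ∈ U | Good (max u u' - min u u')} ≤ #{m ∈ Icc 1 M | Good (d * m)} := by
    apply Finset.card_le_card_of_injOn (fun u' => u' / d - a)
    · intro u' hu'
      rw [Finset.mem_coe, Finset.mem_filter] at hu'
      obtain ⟨hu'U, hfr⟩ := hu'
      obtain ⟨b, hbM, hbu⟩ := Finset.mem_image.1 (hUV hu'U)
      rw [Finset.mem_range] at hbM
      have hle : u ≤ u' := Finset.min'_le _ _ hu'U
      have hab : a ≤ b := by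
        rw [← hau, ← hbu] at hle
        exact Nat.le_of_mul_le_mul_left hle hd
      have hdb : u' / d = b := by rw [← hbu]; exact Nat.mul_div_cancel_left b hd
      have hdiff : max u u' - min u u' = d * (b - a) := by
        rw [max_eq_right hle, min_eq_left hle, ← hau, ← hbu, Nat.mul_sub]
      rw [hdiff] at hfr
      rw [Finset.mem_coe, Finset.mem_filter, Finset.mem_Icc]
      simp only [hdb]
      refine ⟨⟨?_, by omega⟩, hfr⟩
      by_contra hcon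
      have h0 : b - a = 0 := by omega
      rw [h0, Nat.mul_zero] at hfr
      exact hG0 hfr
    · intro x hx y hy hxy
      rw [Finset.mem_coe, Finset.mem_filter] at hx hy
      obtain ⟨b, hbM, hbx⟩ := Finset.mem_image.1 (hUV hx.1)
      obtain ⟨b', hbM', hby⟩ := Finset.mem_image.1 (hUV hy.1)
      have hle1 : u ≤ x := Finset.min'_le _ _ hx.1
      have hle2 : u ≤ y := Finset.min'_le _ _ hy.1
      have hab1 : a ≤ b := by
        rw [← hau, ← hbx] at hle1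
        exact Nat.le_of_mul_le_mul_left hle1 hd
      have hab2 : a ≤ b' := by
        rw [← hau, ← hby] at hle2
        exact Nat.le_of_mul_le_mul_left hle2 hd
      simp only at hxy
      rw [← hbx, ← hby, Nat.mul_div_cancel_left b hd, Nat.mul_div_cancel_left b' hd] at hxy
      rw [← hbx, ← hby]
      congr 1
      omega
  have h3 : (1 / 4 - ε) * (M : ℝ) ≤ (1 / 4 - ε) * (#V : ℝ) := by
    apply mul_le_mul_of_nonneg_left _ hε4
    rw [hVc]; push_cast; linarith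
  exact h3.trans (h1.trans (by exact_mod_cast h2))

open Classical in
/-- everything for a set `Good` with the five cluster property for all `B` -/
theorem all_abs (K : ℕ) (Good : ℕ → Prop) (hG0 : ¬ Good 0) (hFC : ∀ B, FC K B Good) :
    (∃ M₀ : ℕ, ∀ M : ℕ, M₀ ≤ M → (M : ℝ) / 14 ≤ (#{t ∈ Icc 1 M | Even t ∧ Good t} : ℝ)) ∧
    (∀ ε : ℝ, 0 < ε → ∃ L : ℕ, ∀ Q : ℕ, 0 < Q → (∀ p : ℕ, p.Prime → p ≤ L → p ∣ Q) →
      ∃ M₀ : ℕ, ∀ M : ℕ, M₀ ≤ M → (1 / 4 - ε) * ∑ t ∈ Icc 1 M, (pc Q t : ℝ) ≤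
        ∑ t ∈ Icc 1 M with Good t, (pc Q t : ℝ)) ∧
    (∀ ε : ℝ, 0 < ε → ∃ M₀ : ℕ, ∀ d : ℕ, 0 < d → (∀ p : ℕ, p.Prime → p ≤ 5 * K → p ∣ d) →
      ∀ M : ℕ, M₀ ≤ M → (1 / 4 - ε) * M ≤ (#{m ∈ Icc 1 M | Good (d * m)} : ℝ)) ∧
    (∀ ε : ℝ, 0 < ε → ∃ n₀ : ℕ, ∀ V : Finset ℕ, n₀ ≤ #V →
      (∀ p : ℕ, p.Prime → p ≤ 5 * K → ∃ r, ∀ v ∈ V, ¬ v ≡ r [MOD p]) →
      ∃ U ⊆ V, U.Nonempty ∧ ∀ u ∈ U, (1 / 4 - ε) * (#V : ℝ) ≤
        (#{u' ∈ U | Good (max u u' - min u u')} : ℝ)) := by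
  refine ⟨?_, fun ε hε => ?_, fun ε hε => ?_, fun ε hε => ?_⟩
  · obtain ⟨M₀, h⟩ := seventh_abs K
    exact ⟨M₀, fun M hM => h M Good hG0 (hFC M) M hM le_rfl⟩
  · obtain ⟨L, h⟩ := weighted_abs K ε hε
    refine ⟨L, fun Q hQ hLQ => ?_⟩
    obtain ⟨M₀, h'⟩ := h Q hQ hLQ
    exact ⟨M₀, fun M hM => h' M Good hG0 (hFC M) M hM le_rfl⟩
  · obtain ⟨M₀, h⟩ := multiples_abs K ε hε
    exact ⟨M₀, fun d hd hdP M hM => h (d * M) Good hG0 (hFC _) d hd hdP M hM le_rfl⟩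
  · obtain ⟨n₀, h⟩ := core_abs K ε hε
    refine ⟨n₀, fun V hV hadm => h (V.sup id) Good (hFC _) V hV (fun v hv => ?_) hadm⟩
    exact Finset.le_sup (f := id) hv

end Pool.Agent.H21.QG3
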