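import Pool.Agent.H21.QG.Clusters2
import Pool.Agent.H21.QG2.Peel

/-!
The combinatorial part of the quarter theorem for an abstract set `Good` of differences: if among any
five admissible clusters of `K` integers `≤ B` two have a good difference, then every large finite set
`V` of integers `≤ B` that misses a class modulo every prime `≤ 5 K` has a nonempty subset `U` in which
every element has at least `(1/4 - ε) #V` partners at a good distance.
-/

set_option autoImplicit false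

open Finset

namespace Pool.Agent.H21.QG3

open Pool.Agent.H21.QG Pool.Agent.H21.QG2

/-- the five cluster property -/
def FC (K B : ℕ) (Good : ℕ → Prop) : Prop :=
  ∀ H : Fin 5 → Finset ℕ, (∀ i, #(H i) = K) → (∀ i j, i ≠ j → Disjoint (H i) (H j)) →
    (∀ p : ℕ, p.Prime → ∃ r, ∀ i, ∀ h ∈ H i, ¬ h ≡ r [MOD p]) → (∀ i, ∀ h ∈ H i, h ≤ B) →
    ∃ i j, i ≠ j ∧ ∃ h ∈ H i, ∃ h' ∈ H j, h < h' ∧ Good (h' - h)

private lemma adm_aux4 (K : ℕ) (H : Fin 5 → Finset ℕ) (hH : ∀ i, #(H i) = K) (V : Finset ℕ)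
    (hV : ∀ i, ∀ h ∈ H i, h ∈ V)
    (hadm : ∀ p : ℕ, p.Prime → p ≤ 5 * K → ∃ r, ∀ v ∈ V, ¬ v ≡ r [MOD p]) (p : ℕ) (hp : p.Prime) :
    ∃ r, ∀ i, ∀ h ∈ H i, ¬ h ≡ r [MOD p] := by
  classical
  by_cases hpk : p ≤ 5 * K
  · obtain ⟨r, hr⟩ := hadm p hp hpk
    exact ⟨r, fun i h hh => hr h (hV i h hh)⟩
  · push Not at hpk
    by_contra hcon
    push Not at hcon
    have h1 : (Finset.range p) ⊆ (Finset.univ.biUnion H).image (fun τ => τ % p) := by
      intro r hr
      rw [Finset.mem_range] at hr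
      obtain ⟨i, τ, hτ, h2⟩ := hcon r
      rw [Finset.mem_image]
      refine ⟨τ, ?_, ?_⟩
      · rw [Finset.mem_biUnion]
        exact ⟨i, Finset.mem_univ _, hτ⟩
      · have h3 : τ % p = r % p := h2
        rw [h3, Nat.mod_eq_of_lt hr]
    have h2 := (Finset.card_le_card h1).trans Finset.card_image_le
    have h3 : #(Finset.univ.biUnion H) ≤ 5 * K := by
      calc #(Finset.univ.biUnion H) ≤ ∑ i : Fin 5, #(H i) := Finset.card_biUnion_le
        _ = ∑ i : Fin 5, K := Finset.sum_congr rfl (fun i _ => hH i)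
        _ = 5 * K := by simp
    rw [Finset.card_range] at h2
    omega

open Classical in
theorem core_abs (K : ℕ) (ε : ℝ) (hε : 0 < ε) : ∃ n₀ : ℕ, ∀ (B : ℕ) (Good : ℕ → Prop),
    FC K B Good → ∀ V : Finset ℕ, n₀ ≤ #V → (∀ v ∈ V, v ≤ B) →
    (∀ p : ℕ, p.Prime → p ≤ 5 * K → ∃ r, ∀ v ∈ V, ¬ v ≡ r [MOD p]) →
    ∃ U ⊆ V, U.Nonempty ∧ ∀ u ∈ U, (1 / 4 - ε) * (#V : ℝ) ≤
      (#{u' ∈ U | Good (max u u' - min u u')} : ℝ) := by
  obtain ⟨M₀, hM₀⟩ := clustersQ K ε hε
  refine ⟨max M₀ 1, fun N Good hFC V hV hVR hVadm => ?_⟩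
  by_contra hcon
  push Not at hcon
  obtain ⟨e, heV, hinj, hdeg⟩ := peel (fun u u' => Good (max u u' - min u u'))
    ((1 / 4 - ε) * (#V : ℝ)) V hcon
  have hn0 : 0 < #V := (le_max_right _ _).trans hV
  set B : ℕ → Finset ℕ := fun x => if x < #V then
    {y ∈ range (#V) | x < y ∧ Good (max (e x) (e y) - min (e x) (e y))} else ∅ with hB
  have hBc : ∀ b, (#(B b) : ℝ) < (1 / 4 - ε) * (#V : ℕ) := by
    intro b
    by_cases hb : b < #V
    · simp only [hB, hb, if_true]
      exact hdeg b hb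
    · simp only [hB, hb, if_false]
      have h1 := hdeg 0 hn0
      simp only [Finset.card_empty, Nat.cast_zero]
      exact lt_of_le_of_lt (Nat.cast_nonneg _) h1
  obtain ⟨X, hXc, hXM, hX⟩ := hM₀ (#V) ((le_max_left _ _).trans hV) B hBc
  set H : Fin 5 → Finset ℕ := fun i => (X i).image e with hH
  have hcard : ∀ i, #(H i) = K := fun i => by
    rw [hH]; simp only
    rw [Finset.card_image_of_injOn, hXc]
    intro x hx y hy hxy
    exact hinj x (hXM i x hx) y (hXM i y hy) hxy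
  have hHV : ∀ i, ∀ h ∈ H i, h ∈ V := by
    intro i h hh
    rw [hH] at hh
    simp only [Finset.mem_image] at hh
    obtain ⟨x, hx, rfl⟩ := hh
    exact heV x (hXM i x hx)
  have hdisj : ∀ i j, i ≠ j → Disjoint (H i) (H j) := by
    intro i j hij
    rw [Finset.disjoint_left]
    intro τ h1 h2
    rw [hH] at h1 h2
    simp only [Finset.mem_image] at h1 h2
    obtain ⟨x, hx, rfl⟩ := h1
    obtain ⟨y, hy, hxy⟩ := h2
    have hxy' : y = x := hinj y (hXM j y hy) x (hXM i x hx) hxy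
    subst hxy'
    rcases lt_or_gt_of_ne hij with h | h
    · exact lt_irrefl _ (hX i j h _ hx _ hy).1
    · exact lt_irrefl _ (hX j i h _ hy _ hx).1
  obtain ⟨i, j, hij, h, hh, h', hh', hlt, hgood⟩ := hFC H hcard hdisj
    (adm_aux4 K H hcard V hHV hVadm) (fun i τ hτ => hVR τ (hHV i τ hτ))
  rw [hH] at hh hh'
  simp only [Finset.mem_image] at hh hh'
  obtain ⟨x, hx, rfl⟩ := hh
  obtain ⟨y, hy, rfl⟩ := hh'
  have hxV := hXM i x hx
  have hyV := hXM j y hy
  rcases lt_or_gt_of_ne hij with h | h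
  · obtain ⟨hxy, hA'⟩ := hX i j h x hx y hy
    apply hA'
    simp only [hB, hxV, if_true]
    rw [Finset.mem_filter, Finset.mem_range]
    refine ⟨hyV, hxy, ?_⟩
    rw [max_eq_right hlt.le, min_eq_left hlt.le]
    exact hgood
  · obtain ⟨hxy, hA'⟩ := hX j i h y hy x hx
    apply hA'
    simp only [hB, hyV, if_true]
    rw [Finset.mem_filter, Finset.mem_range]
    refine ⟨hxV, hxy, ?_⟩
    rw [max_eq_left hlt.le, min_eq_right hlt.le]
    exact hgood

end Pool.Agent.H21.QG3
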